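import Pool.Agent.N57.TF.Basic

namespace Pool.Agent.N57.TF

open scoped commutatorElement

/-- Semidirect products of a class two group of functions on `P` with `Q`. -/
@[ext] structure BG {P Q : Type} [Group P] [Group Q] (ρ : Q →* P) where
  a : P → ℤ
  c : P → P → ℤ
  q : Q

namespace BG

variable {P Q : Type} [Group P] [Group Q] {ρ : Q →* P}

instance : Mul (BG ρ) := ⟨fun x y => ⟨fun s => x.a s + y.a (s * ρ x.q),
  fun s t => x.c s t + y.c (s * ρ x.q) (t * ρ x.q) + x.a s * y.a (t * ρ x.q), x.q * y.q⟩⟩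
instance : One (BG ρ) := ⟨⟨fun _ => 0, fun _ _ => 0, 1⟩⟩
instance : Inv (BG ρ) := ⟨fun x => ⟨fun s => - x.a (s * ρ x.q⁻¹),
  fun s t => - x.c (s * ρ x.q⁻¹) (t * ρ x.q⁻¹) + x.a (s * ρ x.q⁻¹) * x.a (t * ρ x.q⁻¹), x.q⁻¹⟩⟩

lemma mul_a (x y : BG ρ) (s : P) : (x * y).a s = x.a s + y.a (s * ρ x.q) := rfl
lemma mul_c (x y : BG ρ) (s t : P) : (x * y).c s t =
  x.c s t + y.c (s * ρ x.q) (t * ρ x.q) + x.a s * y.a (t * ρ x.q) := rfl
lemma mul_q (x y : BG ρ) : (x * y).q = x.q * y.q := rfl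
lemma one_a (s : P) : (1 : BG ρ).a s = 0 := rfl
lemma one_c (s t : P) : (1 : BG ρ).c s t = 0 := rfl
lemma one_q : (1 : BG ρ).q = 1 := rfl
lemma inv_a (x : BG ρ) (s : P) : (x⁻¹).a s = - x.a (s * ρ x.q⁻¹) := rfl
lemma inv_c (x : BG ρ) (s t : P) : (x⁻¹).c s t =
  - x.c (s * ρ x.q⁻¹) (t * ρ x.q⁻¹) + x.a (s * ρ x.q⁻¹) * x.a (t * ρ x.q⁻¹) := rfl
lemma inv_q (x : BG ρ) : (x⁻¹).q = x.q⁻¹ := rfl

instance : Group (BG ρ) := Group.ofLeftAxioms
  (by
    intro x y z
    ext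
    · simp only [mul_a, mul_q, map_mul, mul_assoc]; ring
    · simp only [mul_a, mul_c, mul_q, map_mul, mul_assoc]; ring
    · simp only [mul_q, mul_assoc])
  (by
    intro x
    ext
    · simp only [mul_a, one_a, one_q, map_one, mul_one]; ring
    · simp only [mul_a, mul_c, one_a, one_c, one_q, map_one, mul_one]; ring
    · simp only [mul_q, one_q, one_mul])
  (by
    intro x
    ext
    · simp only [mul_a, inv_a, inv_q, one_a]; ring
    · simp only [mul_a, mul_c, inv_a, inv_c, inv_q, one_c]; ring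
    · simp only [mul_q, inv_q, one_q, inv_mul_cancel])

/-- The projection to `Q`. -/
def qHom (ρ : Q →* P) : BG ρ →* Q where
  toFun := BG.q
  map_one' := rfl
  map_mul' := fun _ _ => rfl

lemma comm_q (x y : BG ρ) : (⁅x, y⁆).q = ⁅x.q, y.q⁆ :=
  map_commutatorElement (qHom ρ) x y

/-- conjugation of an element of the kernel. -/
lemma conj_a (g x : BG ρ) (hx : x.q = 1) (s : P) : (g * x * g⁻¹).a s = x.a (s * ρ g.q) := by
  simp only [mul_a, mul_q, hx, mul_one, inv_a, mul_assoc, ← map_mul, mul_inv_cancel, map_one]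
  ring

lemma conj_q (g x : BG ρ) (hx : x.q = 1) : (g * x * g⁻¹).q = 1 := by
  simp only [mul_q, hx, mul_one, inv_q, mul_inv_cancel]

/-- commutator of elements of the kernel. -/
lemma comm_eq (x y : BG ρ) (hx : x.q = 1) (hy : y.q = 1) :
    ⁅x, y⁆ = ⟨0, fun s t => x.a s * y.a t - y.a s * x.a t, 1⟩ := by
  rw [commutatorElement_def]
  ext
  · simp only [mul_a, mul_q, inv_a, inv_q, hx, hy, mul_one, inv_one, map_one, Pi.zero_apply]
    ring
  · simp only [mul_a, mul_q, mul_c, inv_a, inv_c, inv_q, hx, hy, mul_one, inv_one, map_one]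
    ring
  · simp only [mul_q, inv_q, hx, hy, mul_one, inv_one]

/-- The subgroup attached to an invariant group of functions. -/
def NK (ρ : Q →* P) (K : AddSubgroup (P → P → ℤ)) : Subgroup (BG ρ) where
  carrier := {x | x.a = 0 ∧ x.c ∈ K ∧ x.q = 1}
  one_mem' := ⟨rfl, K.zero_mem, rfl⟩
  mul_mem' := by
    rintro x y ⟨hx1, hx2, hx3⟩ ⟨hy1, hy2, hy3⟩
    refine ⟨?_, ?_, ?_⟩
    · ext s; simp [mul_a, hx1, hy1]
    · have : (x * y).c = x.c + y.c := by
        ext s t; simp [mul_c, hx1, hx3]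
      rw [this]; exact K.add_mem hx2 hy2
    · simp [mul_q, hx3, hy3]
  inv_mem' := by
    rintro x ⟨hx1, hx2, hx3⟩
    refine ⟨?_, ?_, ?_⟩
    · ext s; simp [inv_a, hx1]
    · have : (x⁻¹).c = - x.c := by
        ext s t; simp [inv_c, hx1, hx3]
      rw [this]; exact K.neg_mem hx2
    · simp [inv_q, hx3]

lemma mem_NK {K : AddSubgroup (P → P → ℤ)} {x : BG ρ} :
    x ∈ NK ρ K ↔ x.a = 0 ∧ x.c ∈ K ∧ x.q = 1 := Iff.rfl

/-- invariance under translation. -/
def Inv1 (K : AddSubgroup (P → P → ℤ)) : Prop :=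
  ∀ p : P, ∀ c ∈ K, (fun s t => c (s * p) (t * p)) ∈ K

lemma NK_normal {K : AddSubgroup (P → P → ℤ)} (hK : Inv1 K) : (NK ρ K).Normal := by
  constructor
  rintro x ⟨hx1, hx2, hx3⟩ g
  refine ⟨?_, ?_, conj_q g x hx3⟩
  · ext s; rw [conj_a g x hx3, hx1]; rfl
  · have : (g * x * g⁻¹).c = fun s t => x.c (s * ρ g.q) (t * ρ g.q) := by
      ext s t
      simp only [mul_a, mul_q, mul_c, inv_a, inv_c, inv_q, hx1, hx3, mul_one, mul_assoc,
        ← map_mul, mul_inv_cancel, map_one, Pi.zero_apply]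
      ring
    rw [this]; exact hK _ _ hx2

/-- The obvious map. -/
def toId (ρ : Q →* P) : BG ρ →* BG (MonoidHom.id P) where
  toFun x := ⟨x.a, x.c, ρ x.q⟩
  map_one' := by
    ext
    · rfl
    · rfl
    · exact map_one ρ
  map_mul' := by
    intro x y
    ext
    · rfl
    · rfl
    · exact map_mul ρ _ _

end BG

end Pool.Agent.N57.TF
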