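import Mathlib

namespace Pool.Agent.N57.TF

open scoped commutatorElement

/-- The left-normed commutator of three elements. -/
def e3 {G : Type*} [Group G] (x y z : G) : G := ⁅⁅x, y⁆, z⁆

/-- The product of `n` commutators `[x₃,x₄] [x₅,x₆] ⋯`. -/
def dprod {G : Type*} [Group G] (n : ℕ) (x : ℕ → G) : G :=
  ((List.range n).map (fun i => ⁅x (3 + 2 * i), x (4 + 2 * i)⁆)).prod

/-- The left hand side of the law saying that the subgroup generated by all `[[x,y],z]` has class
at most two. -/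
def f1 {G : Type*} [Group G] (x : ℕ → G) : G :=
  ⁅⁅e3 (x 0) (x 1) (x 2), e3 (x 3) (x 4) (x 5)⁆, e3 (x 6) (x 7) (x 8)⁆

/-- The left hand side of the `n`-th law `[v, d v d⁻¹]`. -/
def f2 {G : Type*} [Group G] (n : ℕ) (x : ℕ → G) : G :=
  ⁅e3 (x 0) (x 1) (x 2), dprod n x * e3 (x 0) (x 1) (x 2) * (dprod n x)⁻¹⁆

/-- `w` is a law of `G`. -/
def Sat (G : Type*) [Group G] (w : FreeGroup ℕ) : Prop := ∀ f : ℕ → G, FreeGroup.lift f w = 1

/-- No nontrivial element of finite order. -/
def NoTor (G : Type*) [Group G] : Prop := ∀ g : G, ∀ n : ℕ, 0 < n → g ^ n = 1 → g = 1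

/-- The words defining the laws. -/
def E : Set (FreeGroup ℕ) := {f1 FreeGroup.of} ∪ {w | ∃ n, w = f2 n FreeGroup.of}

/-- All laws of the torsion-free groups satisfying `E`. -/
def W : Set (FreeGroup ℕ) :=
  {w | ∀ (G : Type) [Group G], NoTor G → (∀ v ∈ E, Sat G v) → Sat G w}

section maps
variable {G H : Type*} [Group G] [Group H] (φ : G →* H)

lemma map_e3 (x y z : G) : φ (e3 x y z) = e3 (φ x) (φ y) (φ z) := by
  simp [e3, map_commutatorElement]

lemma map_dprod (n : ℕ) (x : ℕ → G) : φ (dprod n x) = dprod n (fun i => φ (x i)) := by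
  unfold dprod
  rw [map_list_prod, List.map_map]
  congr 1
  apply List.map_congr_left
  intro i _
  simp [map_commutatorElement]

lemma map_f1 (x : ℕ → G) : φ (f1 x) = f1 (fun i => φ (x i)) := by
  simp [f1, map_commutatorElement, map_e3]

lemma map_f2 (n : ℕ) (x : ℕ → G) : φ (f2 n x) = f2 n (fun i => φ (x i)) := by
  simp [f2, map_commutatorElement, map_e3, map_dprod]

lemma lift_f1 (x : ℕ → G) : FreeGroup.lift x (f1 FreeGroup.of) = f1 x := by
  rw [map_f1]; simp

lemma lift_f2 (n : ℕ) (x : ℕ → G) : FreeGroup.lift x (f2 n FreeGroup.of) = f2 n x := by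
  rw [map_f2]; simp

end maps

lemma sat_E {G : Type*} [Group G] :
    (∀ v ∈ E, Sat G v) ↔ (∀ x : ℕ → G, f1 x = 1) ∧ (∀ n, ∀ x : ℕ → G, f2 n x = 1) := by
  constructor
  · intro h
    refine ⟨fun x => ?_, fun n x => ?_⟩
    · rw [← lift_f1]; exact h _ (Or.inl rfl) x
    · rw [← lift_f2]; exact h _ (Or.inr ⟨n, rfl⟩) x
  · rintro ⟨h1, h2⟩ v (hv | ⟨n, hv⟩) x
    · rw [Set.mem_singleton_iff.1 hv, lift_f1]; exact h1 x
    · rw [hv, lift_f2]; exact h2 n x

lemma E_sub_W : E ⊆ W := fun w hw _ _ _ h => h w hw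

/-! ### metanilpotency -/

/-- If `f1` is a law then the subgroup generated by the values of `[[x,y],z]` has class at most
two. -/
theorem meta1 {G : Type*} [Group G] (h : ∀ x : ℕ → G, f1 x = 1) :
    ∃ N : Subgroup G, N.Normal ∧ (∀ a b c : G, ⁅⁅a, b⁆, c⁆ ∈ N) ∧
      (∀ a ∈ N, ∀ b ∈ N, ∀ c ∈ N, ⁅⁅a, b⁆, c⁆ = 1) := by
  classical
  let S : Set G := {g | ∃ a b c : G, g = e3 a b c}
  have hS : ∀ s ∈ S, ∀ t ∈ S, ∀ r ∈ S, ⁅⁅s, t⁆, r⁆ = 1 := by
    rintro _ ⟨a, b, c, rfl⟩ _ ⟨a', b', c', rfl⟩ _ ⟨a'', b'', c'', rfl⟩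
    have := h (fun i => ([a, b, c, a', b', c', a'', b'', c''].getD i 1))
    simpa [f1] using this
  let N : Subgroup G := Subgroup.closure S
  have hN : N.Normal := by
    constructor
    intro n hn g
    induction hn using Subgroup.closure_induction with
    | mem x hx =>
      obtain ⟨a, b, c, rfl⟩ := hx
      apply Subgroup.subset_closure
      exact ⟨g * a * g⁻¹, g * b * g⁻¹, g * c * g⁻¹, by
        have := map_e3 (MulAut.conj g).toMonoidHom a b c
        simpa using this⟩
    | one => simp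
    | mul x y _ _ hx hy =>
      have : g * (x * y) * g⁻¹ = (g * x * g⁻¹) * (g * y * g⁻¹) := by group
      rw [this]; exact N.mul_mem hx hy
    | inv x _ hx =>
      have : g * x⁻¹ * g⁻¹ = (g * x * g⁻¹)⁻¹ := by group
      rw [this]; exact N.inv_mem hx
  refine ⟨N, hN, fun a b c => Subgroup.subset_closure ⟨a, b, c, rfl⟩, ?_⟩
  -- the centralizer of N
  have key1 : ∀ s ∈ S, ∀ t ∈ S, ⁅s, t⁆ ∈ Subgroup.centralizer (N : Set G) := by
    intro s hs t ht
    rw [Subgroup.mem_centralizer_iff]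
    intro n hn
    induction hn using Subgroup.closure_induction with
    | mem x hx =>
      have := hS s hs t ht x hx
      rw [commutatorElement_eq_one_iff_mul_comm] at this
      exact this.symm
    | one => simp
    | mul x y _ _ hx hy =>
      rw [mul_assoc, hy, ← mul_assoc, hx, mul_assoc]
    | inv x _ hx =>
      rw [inv_mul_eq_iff_eq_mul, ← mul_assoc, hx, mul_assoc, mul_inv_cancel, mul_one]
  -- conjugation invariant
  let C := Subgroup.centralizer (N : Set G)
  have hCn : C.Normal := by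
    constructor
    intro c hc g
    rw [Subgroup.mem_centralizer_iff] at hc ⊢
    intro n hn
    have h1 := hc (g⁻¹ * n * g) (by
      have := hN.conj_mem n hn g⁻¹
      simpa using this)
    have h2 : g * ((g⁻¹ * n * g) * c) * g⁻¹ = g * (c * (g⁻¹ * n * g)) * g⁻¹ := by rw [h1]
    have h3 : g * ((g⁻¹ * n * g) * c) * g⁻¹ = n * (g * c * g⁻¹) := by group
    have h4 : g * (c * (g⁻¹ * n * g)) * g⁻¹ = (g * c * g⁻¹) * n := by group
    rw [← h3, ← h4, h2]
  -- all commutators of elements of N lie in C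
  have key2 : ∀ a ∈ N, ∀ b ∈ N, ⁅a, b⁆ ∈ C := by
    have hq : ∀ a b : G, ⁅a, b⁆ ∈ C ↔ Commute (QuotientGroup.mk a : G ⧸ C) (QuotientGroup.mk b) := by
      intro a b
      rw [← QuotientGroup.eq_one_iff]
      rw [← commutatorElement_eq_one_iff_commute]
      rfl
    intro a ha b hb
    rw [hq]
    induction ha using Subgroup.closure_induction with
    | mem x hx =>
      induction hb using Subgroup.closure_induction with
      | mem y hy => rw [← hq]; exact key1 x hx y hy
      | one => exact Commute.one_right _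
      | mul y z _ _ hy hz => exact hy.mul_right hz
      | inv y _ hy => exact hy.inv_right
    | one => exact Commute.one_left _
    | mul y z _ _ hy hz => exact hy.mul_left hz
    | inv y _ hy => exact hy.inv_left
  intro a ha b hb c hc
  have := key2 a ha b hb
  rw [Subgroup.mem_centralizer_iff] at this
  rw [commutatorElement_eq_one_iff_mul_comm]
  exact (this c hc).symm

/-! ### supports -/

lemma exists_finset {X : Type*} (y : FreeGroup X) :
    ∃ s : Finset X, y ∈ Subgroup.closure (FreeGroup.of '' (s : Set X)) := by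
  classical
  induction y using FreeGroup.induction_on with
  | C1 => exact ⟨∅, Subgroup.one_mem _⟩
  | of x => exact ⟨{x}, Subgroup.subset_closure ⟨x, by simp, rfl⟩⟩
  | inv_of x h => obtain ⟨s, hs⟩ := h; exact ⟨s, Subgroup.inv_mem _ hs⟩
  | mul x y hx hy =>
    obtain ⟨s, hs⟩ := hx
    obtain ⟨t, ht⟩ := hy
    refine ⟨s ∪ t, Subgroup.mul_mem _ ?_ ?_⟩
    · exact Subgroup.closure_mono (Set.image_mono (by simp)) hs
    · exact Subgroup.closure_mono (Set.image_mono (by simp)) ht

lemma exists_rename {X : Type*} (y : FreeGroup X) :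
    ∃ (σ : FreeGroup X →* FreeGroup ℕ) (φ : FreeGroup ℕ →* FreeGroup X), φ (σ y) = y := by
  classical
  rcases isEmpty_or_nonempty X with hX | ⟨⟨x0⟩⟩
  · refine ⟨1, 1, ?_⟩
    exact Subsingleton.elim _ _
  obtain ⟨s, hs⟩ := exists_finset y
  let e : X → ℕ := fun x => if h : x ∈ s then (s.equivFin ⟨x, h⟩ : ℕ) else 0
  let e' : ℕ → X := fun i => if h : i < s.card then (s.equivFin.symm ⟨i, h⟩ : X) else x0
  have he : ∀ x ∈ s, e' (e x) = x := by
    intro x hx
    simp [e, e', hx]
  refine ⟨FreeGroup.map e, FreeGroup.map e', ?_⟩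
  have h1 : Set.EqOn ((FreeGroup.map e').comp (FreeGroup.map e)) (MonoidHom.id (FreeGroup X))
      (Subgroup.closure (FreeGroup.of '' (s : Set X))) := by
    apply MonoidHom.eqOn_closure
    rintro _ ⟨x, hx, rfl⟩
    simp [he x (by simpa using hx)]
  simpa using h1 hs

/-- The verbal subgroup. -/
theorem mem_verbal {X : Type*} (y : FreeGroup X) :
    y ∈ Subgroup.normalClosure {x | ∃ w ∈ W, ∃ φ : FreeGroup ℕ →* FreeGroup X, φ w = x} ↔
      ∀ (G : Type) [Group G], NoTor G → (∀ v ∈ E, Sat G v) → ∀ ψ : FreeGroup X →* G, ψ y = 1 := by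
  constructor
  · intro hy G _ hT hE ψ
    have : Subgroup.normalClosure {x | ∃ w ∈ W, ∃ φ : FreeGroup ℕ →* FreeGroup X, φ w = x} ≤
        ψ.ker := by
      apply Subgroup.normalClosure_le_normal
      rintro _ ⟨w, hw, φ, rfl⟩
      rw [SetLike.mem_coe, MonoidHom.mem_ker]
      have h1 := hw G hT hE (fun i => ψ (φ (FreeGroup.of i)))
      have h2 : FreeGroup.lift (fun i => ψ (φ (FreeGroup.of i))) = ψ.comp φ := by
        ext i; simp
      rw [h2] at h1
      exact h1
    exact this hy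
  · intro h
    obtain ⟨σ, φ, hφ⟩ := exists_rename y
    apply Subgroup.subset_normalClosure
    refine ⟨σ y, ?_, φ, hφ⟩
    intro G _ hT hE f
    exact h G hT hE ((FreeGroup.lift f).comp σ)

theorem tf_free (X : Type*) :
    NoTor (FreeGroup X ⧸ Subgroup.normalClosure
      {x | ∃ w ∈ W, ∃ φ : FreeGroup ℕ →* FreeGroup X, φ w = x}) := by
  intro g n hn hg
  induction g using QuotientGroup.induction_on with
  | H y =>
    rw [← QuotientGroup.mk_pow, QuotientGroup.eq_one_iff, mem_verbal] at hg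
    rw [QuotientGroup.eq_one_iff, mem_verbal]
    intro G _ hT hE ψ
    have := hg G hT hE ψ
    rw [map_pow] at this
    exact hT _ n hn this

lemma exists_bound (S : Finset (FreeGroup ℕ)) :
    ∃ k : ℕ, ∀ w ∈ S, w ∈ Subgroup.closure (FreeGroup.of '' {i : ℕ | i < k}) := by
  classical
  induction S using Finset.induction_on with
  | empty => exact ⟨0, by simp⟩
  | insert w S _ ih =>
    obtain ⟨k, hk⟩ := ih
    obtain ⟨s, hs⟩ := exists_finset w
    refine ⟨max k (s.sup id + 1), ?_⟩
    intro v hv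
    rw [Finset.mem_insert] at hv
    rcases hv with rfl | hv
    · refine Subgroup.closure_mono (Set.image_mono ?_) hs
      intro i hi
      have : i ≤ s.sup id := Finset.le_sup (f := id) (by simpa using hi)
      simp only [Set.mem_ofPred_eq]
      omega
    · refine Subgroup.closure_mono (Set.image_mono ?_) (hk v hv)
      intro i hi
      simp only [Set.mem_ofPred_eq] at hi ⊢
      omega

/-- Reduction of the main theorem to the existence of the groups `H`. -/
theorem not_fb
    (hH : ∀ k : ℕ, ∃ (n : ℕ) (H : Type) (_ : Group H),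
      (∀ w ∈ W, w ∈ Subgroup.closure (FreeGroup.of '' {i : ℕ | i < k}) → Sat H w) ∧
      ∃ x : ℕ → H, f2 n x ≠ 1) :
    ¬ ∃ S : Finset (FreeGroup ℕ), ∀ (G : Type) [Group G],
      (∀ w ∈ S, Sat G w) ↔ (∀ w ∈ W, Sat G w) := by
  rintro ⟨S, hS⟩
  have hSW : ∀ w ∈ S, w ∈ W := by
    intro w hw G _ hT hE
    have : ∀ v ∈ W, Sat G v := fun v hv => hv G hT hE
    exact (hS G).2 this w hw
  obtain ⟨k, hk⟩ := exists_bound S
  obtain ⟨n, H, _, h1, x, hx⟩ := hH k
  have h2 : ∀ w ∈ S, Sat H w := fun w hw => h1 w (hSW w hw) (hk w hw)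
  have h3 := (hS H).1 h2 (f2 n FreeGroup.of) (E_sub_W (Or.inr ⟨n, rfl⟩)) x
  rw [lift_f2] at h3
  exact hx h3

end Pool.Agent.N57.TF
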