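import Pool.Agent.N57.TF.Main

namespace Pool.Agent.N57.TF

open scoped commutatorElement

open T2 BG

lemma comm_a {P Q : Type} [Group P] [Group Q] {ρ : Q →* P} (x y : BG ρ) (hx : x.q = 1) (s : P) :
    (⁅x, y⁆).a s = x.a s - x.a (s * ρ y.q) := by
  have h1 : ⁅x, y⁆ = x * (y * x⁻¹ * y⁻¹) := by rw [commutatorElement_def]; group
  have h2 : (x⁻¹).q = 1 := by rw [inv_q, hx, inv_one]
  rw [h1, mul_a, conj_a y _ h2, inv_a, hx]
  simp only [map_one, mul_one, inv_one]
  ring

lemma comm_q1 {P Q : Type} [Group P] [Group Q] {ρ : Q →* P} (x y : BG ρ) (hx : x.q = 1) :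
    (⁅x, y⁆).q = 1 := by
  rw [BG.comm_q, hx, commutatorElement_one_left]

/-- the matrix -/
def JJ (n : ℕ) : (Fin n × Bool) → (Fin n × Bool) → ZMod 2 :=
  fun x y => if x.1 = y.1 ∧ x.2 ≠ y.2 then 1 else 0

lemma JJ_nondeg (n : ℕ) (ξ : Fin n × Bool → ZMod 2) (hξ : ξ ≠ 0) :
    ∃ η, eps ξ η (JJ n) = 1 := by
  obtain ⟨i, hi⟩ := Function.ne_iff.1 hξ
  refine ⟨Pi.single (i.1, !i.2) 1, ?_⟩
  change ∑ j, (∑ i', ξ i' * JJ n i' j) * (Pi.single (i.1, !i.2) (1 : ZMod 2) :
    Fin n × Bool → ZMod 2) j = 1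
  rw [Finset.sum_eq_single (i.1, !i.2)]
  · rw [Pi.single_eq_same, mul_one, Finset.sum_eq_single i]
    · have h1 : JJ n i (i.1, !i.2) = 1 := by simp [JJ]
      rw [h1, mul_one]
      have h2 : ∀ x : ZMod 2, x ≠ 0 → x = 1 := by decide
      exact h2 _ hi
    · intro b _ hb
      have h1 : JJ n b (i.1, !i.2) = 0 := by
        unfold JJ
        rw [if_neg]
        rintro ⟨h3, h4⟩
        apply hb
        ext1
        · exact h3
        · revert h4; simp
      rw [h1, mul_zero]
    · intro h; exact absurd (Finset.mem_univ _) h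
  · intro b _ hb
    rw [Pi.single_eq_of_ne hb, mul_zero]
  · intro h; exact absurd (Finset.mem_univ _) h

/-- the assignment -/
def qq (n : ℕ) (m : ℕ) (b : Bool) : T2 (ZMod 2) (Fin n × Bool) :=
  if h : m < n then ⟨Pi.single (⟨m, h⟩, b) 1, 0⟩ else 1

open Classical in
/-- indicator of the identity -/
noncomputable def ind {P : Type} [Group P] : P → ℤ := fun s => if s = 1 then 1 else 0

/-- the assignment -/
noncomputable def xx (n : ℕ) : ℕ → BG (MonoidHom.id (T2 (ZMod 2) (Fin n × Bool))) := fun m =>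
  if m = 0 then ⟨ind, 0, 1⟩ else
  if m = 1 then ⟨0, 0, qq n 0 false⟩ else
  if m = 2 then ⟨0, 0, qq n 0 true⟩ else
  ⟨0, 0, qq n ((m - 3) / 2) (decide ((m - 3) % 2 = 1))⟩

lemma sum_list {M : Type*} [AddCommMonoid M] (g : ℕ → M) (n : ℕ) :
    ((List.range n).map g).sum = ∑ i ∈ Finset.range n, g i := by
  induction n with
  | zero => simp
  | succ n ih => rw [List.range_succ, List.map_append, List.sum_append, ih,
      Finset.sum_range_succ]; simp

lemma dprod_xx (n : ℕ) : (dprod n (xx n)).q = z (JJ n) := by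
  have h0 : (dprod n (xx n)).q = dprod n (fun i => (xx n i).q) :=
    map_dprod (qHom _) n (xx n)
  rw [h0]
  unfold dprod
  have h1 : ∀ i, ⁅(xx n (3 + 2 * i)).q, (xx n (4 + 2 * i)).q⁆ =
      z (fun x y => (qq n i false).v x * (qq n i true).v y -
        (qq n i true).v x * (qq n i false).v y) := by
    intro i
    have e1 : (xx n (3 + 2 * i)).q = qq n i false := by
      unfold xx
      rw [if_neg (by omega), if_neg (by omega), if_neg (by omega)]
      have : (3 + 2 * i - 3) / 2 = i := by omega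
      have h2 : (3 + 2 * i - 3) % 2 = 0 := by omega
      simp only [this, h2]
      rfl
    have e2 : (xx n (4 + 2 * i)).q = qq n i true := by
      unfold xx
      rw [if_neg (by omega), if_neg (by omega), if_neg (by omega)]
      have : (4 + 2 * i - 3) / 2 = i := by omega
      have h2 : (4 + 2 * i - 3) % 2 = 1 := by omega
      simp only [this, h2]
      rfl
    rw [e1, e2, T2.comm_eq]
  simp only [h1]
  have h2 := prod_z ((List.range n).map (fun i => fun x y => (qq n i false).v x * (qq n i true).v y -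
        (qq n i true).v x * (qq n i false).v y))
  rw [List.map_map] at h2
  have h3 : (z ∘ fun (i : ℕ) (x y : Fin n × Bool) => (qq n i false).v x * (qq n i true).v y -
        (qq n i true).v x * (qq n i false).v y) = (fun (i : ℕ) =>
      z (fun x y => (qq n i false).v x * (qq n i true).v y -
        (qq n i true).v x * (qq n i false).v y)) := rfl
  rw [h3] at h2
  rw [h2, sum_list, Finset.sum_range]
  congr 1
  funext x y
  simp only [Finset.sum_apply]
  have h4 : ∀ (i : Fin n) (b : Bool), (qq n i b).v = Pi.single (i, b) 1 := by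
    intro i b
    unfold qq
    rw [dif_pos i.2]
  simp only [h4]
  obtain ⟨x1, x2⟩ := x
  obtain ⟨y1, y2⟩ := y
  rw [Finset.sum_eq_single x1]
  · simp only [JJ, Pi.single_apply, Prod.mk.injEq, true_and]
    by_cases h5 : x1 = y1
    · subst h5
      cases x2 <;> cases y2 <;> simp
    · have h6 : ¬ y1 = x1 := fun h => h5 h.symm
      simp [h5, h6]
  · intro b _ hb
    have : ∀ c, (x1, x2) ≠ (b, c) := by
      intro c h
      exact hb (congrArg Prod.fst h).symm
    simp [Pi.single_apply, this]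
  · intro h; exact absurd (Finset.mem_univ _) h

/-- The value of the first coordinate of `e3`. -/
lemma e3_a (n : ℕ) (s : T2 (ZMod 2) (Fin n × Bool)) :
    (e3 (xx n 0) (xx n 1) (xx n 2)).a s =
      (ind s - ind (s * qq n 0 false)) -
      (ind (s * qq n 0 true) - ind (s * qq n 0 true * qq n 0 false)) := by
  unfold e3
  have h0 : (xx n 0).q = 1 := rfl
  rw [comm_a _ _ (comm_q1 _ _ h0), comm_a _ _ h0, comm_a _ _ h0]
  rfl

lemma e3_az (n : ℕ) (hn : 0 < n) (w : (Fin n × Bool) → (Fin n × Bool) → ZMod 2) :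
    (e3 (xx n 0) (xx n 1) (xx n 2)).a (z w) = if w = 0 then 1 else 0 := by
  rw [e3_a]
  have hv : ∀ b, (qq n 0 b).v = Pi.single (⟨0, hn⟩, b) 1 := by
    intro b
    unfold qq
    rw [dif_pos hn]
  have h1 : z w * qq n 0 false ≠ 1 := by
    intro h
    have := congrFun (congrArg T2.v h) (⟨0, hn⟩, false)
    rw [mul_v, hv] at this
    simp [z, T2.one_v] at this
  have h2 : z w * qq n 0 true ≠ 1 := by
    intro h
    have := congrFun (congrArg T2.v h) (⟨0, hn⟩, true)
    rw [mul_v, hv] at this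
    simp [z, T2.one_v] at this
  have h3 : z w * qq n 0 true * qq n 0 false ≠ 1 := by
    intro h
    have := congrFun (congrArg T2.v h) (⟨0, hn⟩, true)
    rw [mul_v, mul_v, hv, hv] at this
    simp [z, T2.one_v] at this
  have h4 : z w = 1 ↔ w = 0 := by
    constructor
    · intro h
      exact congrArg T2.c h
    · rintro rfl; rfl
  simp [ind, h1, h2, h3, h4]

theorem fails (n : ℕ) (hn : 0 < n) : ∃ x : ℕ → HH (JJ n), f2 n x ≠ 1 := by
  refine ⟨fun i => (QuotientGroup.mk' (NK (MonoidHom.id _) (KH (JJ n)))) (xx n i), ?_⟩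
  rw [← map_f2, QuotientGroup.mk'_apply, Ne, QuotientGroup.eq_one_iff]
  have h0 : (xx n 0).q = 1 := rfl
  have h1 : (e3 (xx n 0) (xx n 1) (xx n 2)).q = 1 := comm_q1 _ _ (comm_q1 _ _ h0)
  unfold f2
  rw [BG.comm_eq _ _ h1 (conj_q _ _ h1)]
  rintro ⟨_, h2, _⟩
  simp only [conj_a _ _ h1, dprod_xx, MonoidHom.id_apply] at h2
  have hε := h2.2 1
    { toFun := fun w => w (⟨0, hn⟩, false) (⟨0, hn⟩, true)
      map_zero' := rfl
      map_add' := fun _ _ => rfl } (by simp [JJ])
  simp only [one_mul] at hε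
  have h2' : ∀ x : ZMod 2, x + x = 0 := by decide
  have hJ : JJ n + JJ n = 0 := by funext i j; exact h2' _
  have hzz : ∀ w, z w * z (JJ n) * z (JJ n) = z w := by
    intro w
    rw [mul_assoc, z_mul_z, hJ, z_zero, mul_one]
  have hwJ : ∀ w : (Fin n × Bool) → (Fin n × Bool) → ZMod 2, w + JJ n = 0 ↔ w = JJ n := by
    intro w
    constructor
    · intro h
      have : w + JJ n + JJ n = 0 + JJ n := by rw [h]
      rw [add_assoc, hJ, add_zero, zero_add] at this
      exact this
    · rintro rfl; exact hJ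
  have hval : ∀ w : (Fin n × Bool) → (Fin n × Bool) → ZMod 2,
      (e3 (xx n 0) (xx n 1) (xx n 2)).a (z w) *
        (e3 (xx n 0) (xx n 1) (xx n 2)).a (z w * z (JJ n) * z (JJ n)) -
      (e3 (xx n 0) (xx n 1) (xx n 2)).a (z w * z (JJ n)) *
        (e3 (xx n 0) (xx n 1) (xx n 2)).a (z w * z (JJ n)) =
      (if w = 0 then 1 else 0) - (if w = JJ n then 1 else 0) := by
    intro w
    rw [hzz, z_mul_z, e3_az n hn, e3_az n hn]
    simp only [hwJ]
    split_ifs <;> simp
  simp only [hval] at hε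
  rw [Finset.sum_sub_distrib, Finset.sum_ite_eq', Finset.sum_ite_eq'] at hε
  rw [if_pos (by simp), if_neg (by simp [JJ])] at hε
  revert hε
  decide

end Pool.Agent.N57.TF
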