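import Pool.Agent.N57.TF.T2

namespace Pool.Agent.N57.TF

open scoped commutatorElement

open T2 BG

variable {ι : Type} [Fintype ι]

/-- antisymmetric functions -/
def Anti {P : Type} (u : P → P → ℤ) : Prop := ∀ s t, u s t + u t s = 0

/-- translation -/
def tr {P : Type} [Group P] (p : P) (u : P → P → ℤ) : P → P → ℤ := fun s t => u (s * p) (t * p)

lemma anti_tr {P : Type} [Group P] (p : P) {u : P → P → ℤ} (h : Anti u) : Anti (tr p u) :=
  fun s t => h (s * p) (t * p)

/-- translation as a hom -/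
def trHom {P : Type} [Group P] (p : P) : (P → P → ℤ) →+ (P → P → ℤ) where
  toFun := tr p
  map_zero' := rfl
  map_add' := fun _ _ => rfl

/-- good functionals -/
def Good (ξ : ι → ZMod 2) (φ : (T2 (ZMod 2) ι → T2 (ZMod 2) ι → ℤ) →+ ℤ) : Prop :=
  ∀ u, Anti u → ∀ δ : ι → ι → ZMod 2, (∀ j, ∑ i, ξ i * δ i j = 0) → φ (tr (z δ) u) = φ u

/-- The subgroup killed by all good functionals. -/
def Kt (ξ : ι → ZMod 2) : AddSubgroup (T2 (ZMod 2) ι → T2 (ZMod 2) ι → ℤ) where
  carrier := {c | ∀ φ, Good ξ φ → φ c = 0}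
  zero_mem' := fun φ _ => map_zero φ
  add_mem' := by
    intro a b ha hb φ hφ
    rw [map_add, ha φ hφ, hb φ hφ, add_zero]
  neg_mem' := by
    intro a ha φ hφ
    rw [map_neg, ha φ hφ, neg_zero]

lemma mem_Kt {ξ : ι → ZMod 2} {c : T2 (ZMod 2) ι → T2 (ZMod 2) ι → ℤ} :
    c ∈ Kt ξ ↔ ∀ φ, Good ξ φ → φ c = 0 := Iff.rfl

lemma Kt_inv (ξ : ι → ZMod 2) : Inv1 (Kt ξ) := by
  intro p c hc φ hφ
  have : Good ξ (φ.comp (trHom p)) := by
    intro u hu δ hδ
    have h1 := hφ (tr p u) (anti_tr p hu) δ hδ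
    have h2 : tr p (tr (z δ) u) = tr (z δ) (tr p u) := by
      funext s t
      simp only [tr, mul_assoc, z_comm]
    change φ (tr p (tr (z δ) u)) = φ (tr p u)
    rw [h2, h1]
  exact hc _ this

instance (ξ : ι → ZMod 2) : (NK (rho ξ) (Kt ξ)).Normal := NK_normal (Kt_inv ξ)

lemma anti_wedge {P : Type} (a b : P → ℤ) : Anti (fun s t => a s * b t - b s * a t) := by
  intro s t; ring

/-- the group -/
abbrev Gt (ξ : ι → ZMod 2) : Type := BG (rho ξ) ⧸ NK (rho ξ) (Kt ξ)

lemma class_two_Qx (ξ : ι → ZMod 2) (x y w : Qx ξ) : ⁅⁅x, y⁆, w⁆ = 1 := by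
  apply Subtype.ext
  have := class_two (x : T2 ℤ ι) y w
  exact this

lemma e3_q {ξ : ι → ZMod 2} (x y w : BG (rho ξ)) : (e3 x y w).q = 1 := by
  unfold e3
  rw [BG.comm_q, BG.comm_q, class_two_Qx]

lemma Gt_f1 (ξ : ι → ZMod 2) (x : ℕ → Gt ξ) : f1 x = 1 := by
  choose r hr using fun i => QuotientGroup.mk_surjective (x i)
  have : x = fun i => (QuotientGroup.mk' (NK (rho ξ) (Kt ξ))) (r i) := by
    funext i; exact (hr i).symm
  rw [this, ← map_f1]
  rw [QuotientGroup.mk'_apply, QuotientGroup.eq_one_iff]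
  unfold f1
  rw [BG.comm_eq _ _ (e3_q _ _ _) (e3_q _ _ _), BG.comm_eq _ _ rfl (e3_q _ _ _)]
  refine ⟨rfl, ?_, rfl⟩
  have : (fun s t => (0 : T2 (ZMod 2) ι → ℤ) s * (e3 (r 6) (r 7) (r 8)).a t -
      (e3 (r 6) (r 7) (r 8)).a s * (0 : T2 (ZMod 2) ι → ℤ) t) = 0 := by
    funext s t; simp
  simp only [this]
  exact (Kt ξ).zero_mem

lemma wedge_mem (ξ : ι → ZMod 2) (a : T2 (ZMod 2) ι → ℤ) (δ : ι → ι → ZMod 2)
    (hδ : ∀ j, ∑ i, ξ i * δ i j = 0) :
    (fun s t => a s * a (t * z δ) - a (s * z δ) * a t) ∈ Kt ξ := by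
  intro φ hφ
  set u : T2 (ZMod 2) ι → T2 (ZMod 2) ι → ℤ :=
    (fun s t => a s * a (t * z δ) - a (s * z δ) * a t) with hu
  have h1 := hφ u (anti_wedge a (fun s => a (s * z δ))) δ hδ
  have h2 : tr (z δ) u = - u := by
    funext s t
    have hz : ∀ s : T2 (ZMod 2) ι, s * z δ * z δ = s := by
      intro s
      rw [mul_assoc, z_mul_z]
      have : δ + δ = 0 := by
        funext i j
        have : ∀ x : ZMod 2, x + x = 0 := by decide
        exact this _
      rw [this, z_zero, mul_one]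
    simp only [tr, hu, Pi.neg_apply, hz]
    ring
  rw [h2, map_neg] at h1
  omega

lemma Gt_f2 (ξ : ι → ZMod 2) (n : ℕ) (x : ℕ → Gt ξ) : f2 n x = 1 := by
  choose r hr using fun i => QuotientGroup.mk_surjective (x i)
  have : x = fun i => (QuotientGroup.mk' (NK (rho ξ) (Kt ξ))) (r i) := by
    funext i; exact (hr i).symm
  rw [this, ← map_f2]
  rw [QuotientGroup.mk'_apply, QuotientGroup.eq_one_iff]
  unfold f2
  rw [BG.comm_eq _ _ (e3_q _ _ _) (conj_q _ _ (e3_q _ _ _))]
  refine ⟨rfl, ?_, rfl⟩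
  simp only [conj_a _ _ (e3_q _ _ _)]
  have h1 : rho ξ (dprod n r).q = rho ξ (dprod n (fun i => (r i).q)) := by
    have := map_dprod (qHom (rho ξ)) n r
    exact congrArg _ this
  obtain ⟨δ, h2, h3⟩ := dprod_rho ξ n (fun i => (r i).q)
  rw [h1, h2]
  exact wedge_mem ξ _ δ h3

lemma pow_ac {P Q : Type} [Group P] [Group Q] {ρ : Q →* P} (x : BG ρ) (hx : x.q = 1) (m : ℕ) :
    (x ^ m).q = 1 ∧ (∀ s, (x ^ m).a s = m * x.a s) ∧
      (x.a = 0 → ∀ s t, (x ^ m).c s t = m * x.c s t) := by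
  induction m with
  | zero => exact ⟨rfl, fun s => by simp [one_a], fun _ s t => by simp [BG.one_c]⟩
  | succ m ih =>
    obtain ⟨h1, h2, h3⟩ := ih
    refine ⟨?_, ?_, ?_⟩
    · rw [pow_succ, mul_q, h1, hx, one_mul]
    · intro s
      rw [pow_succ, mul_a, h1, h2, map_one, mul_one]; push_cast; ring
    · intro h s t
      rw [pow_succ, BG.mul_c, h1, h2, map_one, mul_one, mul_one, h3 h, h]
      simp only [Pi.zero_apply]; push_cast; ring

lemma Gt_noTor (ξ : ι → ZMod 2) : NoTor (Gt ξ) := by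
  intro g m hm hg
  induction g using QuotientGroup.induction_on with
  | H x =>
    rw [← QuotientGroup.mk_pow, QuotientGroup.eq_one_iff, mem_NK] at hg
    rw [QuotientGroup.eq_one_iff]
    obtain ⟨h1, h2, h3⟩ := hg
    have hq : x.q = 1 := by
      have h4 : (x ^ m).q = x.q ^ m := map_pow (qHom (rho ξ)) x m
      rw [h4] at h3
      have h5 : (x.q : T2 ℤ ι) ^ m = 1 := by
        have := congrArg (Subtype.val) h3
        exact this
      exact Subtype.ext (T2.torsion_free _ m hm h5)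
    obtain ⟨_, h6, h7⟩ := pow_ac x hq m
    have ha : x.a = 0 := by
      funext s
      have := h6 s
      rw [h1] at this
      have h8 : (m : ℤ) ≠ 0 := by exact_mod_cast hm.ne'
      rcases mul_eq_zero.1 this.symm with h | h
      · exact absurd h h8
      · exact h
    refine ⟨ha, ?_, hq⟩
    intro φ hφ
    have h9 := h2 φ hφ
    have h10 : (x ^ m).c = m • x.c := by
      funext s t
      rw [h7 ha s t]; simp
    rw [h10, map_nsmul] at h9
    have h8 : (m : ℤ) ≠ 0 := by exact_mod_cast hm.ne'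
    simpa [hm.ne'] using h9

theorem Gt_E (ξ : ι → ZMod 2) : ∀ v ∈ E, Sat (Gt ξ) v :=
  sat_E.2 ⟨Gt_f1 ξ, fun n => Gt_f2 ξ n⟩

/-! ### The group `H` -/

section H
variable [DecidableEq ι]

/-- The defining subgroup of `H`. -/
def KH (J : ι → ι → ZMod 2) : AddSubgroup (T2 (ZMod 2) ι → T2 (ZMod 2) ι → ℤ) where
  carrier := {c | Anti c ∧ ∀ s₀ : T2 (ZMod 2) ι, ∀ ε : (ι → ι → ZMod 2) →+ ZMod 2, ε J = 1 →
    Even (∑ w ∈ Finset.univ.filter (fun w => ε w = 0), c (s₀ * z w) (s₀ * z w * z J))}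
  zero_mem' := by
    refine ⟨fun s t => by simp, ?_⟩
    intro s₀ ε _
    simp
  add_mem' := by
    rintro a b ⟨ha1, ha2⟩ ⟨hb1, hb2⟩
    refine ⟨fun s t => ?_, ?_⟩
    · have h1 := ha1 s t
      have h2 := hb1 s t
      simp only [Pi.add_apply]
      omega
    · intro s₀ ε hε
      simp only [Pi.add_apply, Finset.sum_add_distrib]
      exact (ha2 s₀ ε hε).add (hb2 s₀ ε hε)
  neg_mem' := by
    rintro a ⟨ha1, ha2⟩
    refine ⟨fun s t => ?_, ?_⟩
    · have h1 := ha1 s t
      simp only [Pi.neg_apply]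
      omega
    · intro s₀ ε hε
      simp only [Pi.neg_apply, Finset.sum_neg_distrib]
      exact (ha2 s₀ ε hε).neg

lemma mem_KH {J : ι → ι → ZMod 2} {c : T2 (ZMod 2) ι → T2 (ZMod 2) ι → ℤ} :
    c ∈ KH J ↔ Anti c ∧ ∀ s₀ : T2 (ZMod 2) ι, ∀ ε : (ι → ι → ZMod 2) →+ ZMod 2, ε J = 1 →
    Even (∑ w ∈ Finset.univ.filter (fun w => ε w = 0), c (s₀ * z w) (s₀ * z w * z J)) := Iff.rfl

lemma KH_inv (J : ι → ι → ZMod 2) : Inv1 (KH J) := by
  rintro p c ⟨h1, h2⟩
  refine ⟨fun s t => h1 _ _, ?_⟩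
  intro s₀ ε hε
  have h3 := h2 (s₀ * p) ε hε
  have : ∀ w : ι → ι → ZMod 2, c (s₀ * z w * p) (s₀ * z w * z J * p) =
      c (s₀ * p * z w) (s₀ * p * z w * z J) := by
    intro w
    have e1 : s₀ * z w * p = s₀ * p * z w := by rw [mul_assoc, z_comm, ← mul_assoc]
    have e2 : s₀ * z w * z J * p = s₀ * p * z w * z J := by
      rw [mul_assoc _ (z J) p, z_comm J p, ← mul_assoc, e1]
    rw [e1, e2]
  simp only [this]
  exact h3

instance (J : ι → ι → ZMod 2) : (NK (MonoidHom.id (T2 (ZMod 2) ι)) (KH J)).Normal :=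
  NK_normal (KH_inv J)

/-- The group `H`. -/
abbrev HH (J : ι → ι → ZMod 2) : Type :=
  BG (MonoidHom.id (T2 (ZMod 2) ι)) ⧸ NK (MonoidHom.id (T2 (ZMod 2) ι)) (KH J)

/-- The parity lemma. -/
lemma parity (J : ι → ι → ZMod 2) (ε ε' : (ι → ι → ZMod 2) →+ ZMod 2) (h : ε J = 1)
    (h' : ε' J = 1) (f : (ι → ι → ZMod 2) → ℤ) (hf : ∀ w, f (w + J) = - f w)
    (hE : Even (∑ w ∈ Finset.univ.filter (fun w => ε w = 0), f w)) :
    Even (∑ w ∈ Finset.univ.filter (fun w => ε' w = 0), f w) := by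
  have h2 : ∀ x : ZMod 2, x + x = 0 := by decide
  have hJ : J + J = 0 := by funext i j; exact h2 _
  have key : ∑ w ∈ Finset.univ.filter (fun w => ε' w = 0), f w =
      ∑ w ∈ Finset.univ.filter (fun w => ε w = 0), (if ε' w = 0 then f w else - f w) := by
    apply Finset.sum_bij' (fun w _ => if ε w = 0 then w else w + J)
      (fun w _ => if ε' w = 0 then w else w + J)
    · intro w hw
      simp only [Finset.mem_filter, Finset.mem_univ, true_and] at hw ⊢
      split_ifs with h3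
      · exact h3
      · rw [map_add, h]
        revert h3; generalize ε w = x; revert x; decide
    · intro w hw
      simp only [Finset.mem_filter, Finset.mem_univ, true_and] at hw ⊢
      split_ifs with h3
      · exact h3
      · rw [map_add, h']
        revert h3; generalize ε' w = x; revert x; decide
    · intro w hw
      simp only [Finset.mem_filter, Finset.mem_univ, true_and] at hw
      by_cases h3 : ε w = 0
      · simp [h3, hw]
      · simp only [h3, if_false, map_add, hw, h', zero_add, one_ne_zero, add_assoc, hJ, add_zero]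
    · intro w hw
      simp only [Finset.mem_filter, Finset.mem_univ, true_and] at hw
      by_cases h3 : ε' w = 0
      · simp [h3, hw]
      · simp only [h3, if_false, map_add, hw, h, zero_add, one_ne_zero, add_assoc, hJ, add_zero]
    · intro w hw
      simp only [Finset.mem_filter, Finset.mem_univ, true_and] at hw
      by_cases h3 : ε w = 0
      · simp [h3, hw]
      · simp only [h3, if_false, map_add, hw, h', zero_add, one_ne_zero, hf, neg_neg]
  rw [key]
  have h4 : ∀ (s : Finset (ι → ι → ZMod 2)),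
      Even ((∑ w ∈ s, (if ε' w = 0 then f w else - f w)) - ∑ w ∈ s, f w) := by
    intro s
    rw [← Finset.sum_sub_distrib]
    apply Finset.even_sum
    intro w _
    split_ifs
    · simp
    · exact ⟨- f w, by ring⟩
  have := (h4 (Finset.univ.filter (fun w => ε w = 0))).add hE
  simpa using this

/-- bilinear form values -/
def eps (ξ η : ι → ZMod 2) : (ι → ι → ZMod 2) →+ ZMod 2 where
  toFun w := ∑ j, (∑ i, ξ i * w i j) * η j
  map_zero' := by simp
  map_add' := by
    intro a b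
    simp [mul_add, add_mul, Finset.sum_add_distrib]

lemma Kt_le_KH (J : ι → ι → ZMod 2) (ξ : ι → ZMod 2) (hξ : ∃ η, eps ξ η J = 1) :
    Kt ξ ≤ KH J := by
  obtain ⟨η, hη⟩ := hξ
  intro c hc
  have h2 : ∀ x : ZMod 2, x + x = 0 := by decide
  have hJ : J + J = 0 := by funext i j; exact h2 _
  have hanti : Anti c := by
    intro s t
    let φ : (T2 (ZMod 2) ι → T2 (ZMod 2) ι → ℤ) →+ ℤ :=
      { toFun := fun c => c s t + c t s
        map_zero' := by simp
        map_add' := by intro a b; simp only [Pi.add_apply]; ring }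
    refine hc φ ?_
    intro u hu δ _
    change tr (z δ) u s t + tr (z δ) u t s = u s t + u t s
    rw [anti_tr (z δ) hu s t, hu s t]
  refine ⟨hanti, ?_⟩
  intro s₀ ε hε
  refine parity J (eps ξ η) ε hη hε (fun w => c (s₀ * z w) (s₀ * z w * z J)) ?_ ?_
  · intro w
    have e1 : s₀ * z (w + J) = s₀ * z w * z J := by rw [mul_assoc, z_mul_z]
    have e2 : s₀ * z (w + J) * z J = s₀ * z w := by
      rw [mul_assoc, z_mul_z, add_assoc, hJ, add_zero]
    change c (s₀ * z (w + J)) (s₀ * z (w + J) * z J) = - c (s₀ * z w) (s₀ * z w * z J)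
    rw [e2, e1]
    have := hanti (s₀ * z w * z J) (s₀ * z w)
    omega
  · let φ : (T2 (ZMod 2) ι → T2 (ZMod 2) ι → ℤ) →+ ℤ :=
      { toFun := fun c => ∑ w ∈ Finset.univ.filter (fun w => eps ξ η w = 0),
          c (s₀ * z w) (s₀ * z w * z J)
        map_zero' := by simp
        map_add' := by intro a b; simp only [Pi.add_apply, Finset.sum_add_distrib] }
    have : φ c = 0 := by
      refine hc φ ?_
      intro u _ δ hδ
      change ∑ w ∈ Finset.univ.filter (fun w => eps ξ η w = 0),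
          u (s₀ * z w * z δ) (s₀ * z w * z J * z δ) =
        ∑ w ∈ Finset.univ.filter (fun w => eps ξ η w = 0), u (s₀ * z w) (s₀ * z w * z J)
      have hδ' : eps ξ η δ = 0 := by
        change ∑ j, (∑ i, ξ i * δ i j) * η j = 0
        simp [hδ]
      have hδδ : δ + δ = 0 := by funext i j; exact h2 _
      apply Finset.sum_bij' (fun w _ => w + δ) (fun w _ => w + δ)
      · intro w hw
        simp only [Finset.mem_filter, Finset.mem_univ, true_and] at hw ⊢
        rw [map_add, hw, hδ', add_zero]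
      · intro w hw
        simp only [Finset.mem_filter, Finset.mem_univ, true_and] at hw ⊢
        rw [map_add, hw, hδ', add_zero]
      · intro w _
        rw [add_assoc, hδδ, add_zero]
      · intro w _
        rw [add_assoc, hδδ, add_zero]
      · intro w _
        have e1 : s₀ * z w * z δ = s₀ * z (w + δ) := by rw [mul_assoc, z_mul_z]
        have e2 : s₀ * z w * z J * z δ = s₀ * z (w + δ) * z J := by
          rw [mul_assoc _ (z J), z_comm J, ← mul_assoc, e1]
        rw [e1, e2]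
    change Even (φ c)
    rw [this]
    exact ⟨0, rfl⟩

/-- The homomorphism from the torsion-free group to `H`. -/
def toH (J : ι → ι → ZMod 2) (ξ : ι → ZMod 2) (hξ : ∃ η, eps ξ η J = 1) : Gt ξ →* HH J :=
  QuotientGroup.map _ _ (toId (rho ξ)) (by
    rintro x ⟨h1, h2, h3⟩
    refine ⟨h1, Kt_le_KH J ξ hξ h2, ?_⟩
    change rho ξ x.q = 1
    rw [h3, map_one])

lemma toH_mk (J : ι → ι → ZMod 2) (ξ : ι → ZMod 2) (hξ : ∃ η, eps ξ η J = 1) (x : BG (rho ξ)) :
    toH J ξ hξ (QuotientGroup.mk x) = QuotientGroup.mk (toId (rho ξ) x) := rfl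

/-- Laws in few variables hold in `H`. -/
theorem HH_laws (J : ι → ι → ZMod 2) (hJ : ∀ ξ : ι → ZMod 2, ξ ≠ 0 → ∃ η, eps ξ η J = 1)
    (k : ℕ) (hk : k < Fintype.card ι) (w : FreeGroup ℕ) (hw : w ∈ W)
    (hwk : w ∈ Subgroup.closure (FreeGroup.of '' {i : ℕ | i < k})) : Sat (HH J) w := by
  intro f
  choose r hr using fun i => QuotientGroup.mk_surjective (f i)
  -- choose ξ
  let L : (ι → ZMod 2) →ₗ[ZMod 2] (Fin k → ZMod 2) :=
    { toFun := fun ξ m => ∑ i, ξ i * (r m).q.v i
      map_add' := by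
        intro a b; funext m; simp [add_mul, Finset.sum_add_distrib]
      map_smul' := by
        intro a b; funext m; simp [Finset.mul_sum, mul_assoc] }
  have hL : LinearMap.ker L ≠ ⊥ := by
    apply LinearMap.ker_ne_bot_of_finrank_lt
    simpa using hk
  obtain ⟨ξ, hξL, hξ0⟩ := (Submodule.ne_bot_iff _).1 hL
  have hξ := hJ ξ hξ0
  have hor : ∀ m : ℕ, m < k → ∑ i, ξ i * (r m).q.v i = 0 := by
    intro m hm
    have := congrFun (LinearMap.mem_ker.1 hξL) ⟨m, hm⟩
    exact this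
  have hlift : ∀ m : ℕ, m < k → ∃ g : Gt ξ, toH J ξ hξ g = f m := by
    intro m hm
    obtain ⟨q, hq⟩ := exists_lift ξ (r m).q (hor m hm)
    refine ⟨QuotientGroup.mk ⟨(r m).a, (r m).c, q⟩, ?_⟩
    rw [toH_mk, ← hr m]
    congr 1
    change (⟨(r m).a, (r m).c, rho ξ q⟩ : BG (MonoidHom.id (T2 (ZMod 2) ι))) = r m
    rw [hq]
  choose g hg using hlift
  let g' : ℕ → Gt ξ := fun m => if h : m < k then g m h else 1
  have h1 : Set.EqOn (FreeGroup.lift f) ((toH J ξ hξ).comp (FreeGroup.lift g'))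
      (Subgroup.closure (FreeGroup.of '' {i : ℕ | i < k})) := by
    apply MonoidHom.eqOn_closure
    rintro _ ⟨m, hm, rfl⟩
    have hm' : m < k := hm
    simp [g', hm', hg]
  rw [h1 hwk]
  change toH J ξ hξ (FreeGroup.lift g' w) = 1
  rw [hw (Gt ξ) (Gt_noTor ξ) (Gt_E ξ) g', map_one]

end H

end Pool.Agent.N57.TF
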