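import Pool.Agent.N57.TF.BG

namespace Pool.Agent.N57.TF

open scoped commutatorElement

/-- Truncated tensor group. -/
@[ext] structure T2 (R ι : Type) where
  v : ι → R
  c : ι → ι → R

namespace T2

variable {R ι : Type} [CommRing R]

instance [Fintype ι] [DecidableEq ι] [Fintype R] [DecidableEq R] : Fintype (T2 R ι) :=
  Fintype.ofEquiv ((ι → R) × (ι → ι → R))
    ⟨fun x => ⟨x.1, x.2⟩, fun x => ⟨x.v, x.c⟩, fun _ => rfl, fun _ => rfl⟩

instance : Mul (T2 R ι) := ⟨fun x y => ⟨fun i => x.v i + y.v i,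
  fun i j => x.c i j + y.c i j + x.v i * y.v j⟩⟩
instance : One (T2 R ι) := ⟨⟨fun _ => 0, fun _ _ => 0⟩⟩
instance : Inv (T2 R ι) := ⟨fun x => ⟨fun i => - x.v i,
  fun i j => - x.c i j + x.v i * x.v j⟩⟩

lemma mul_v (x y : T2 R ι) (i : ι) : (x * y).v i = x.v i + y.v i := rfl
lemma mul_c (x y : T2 R ι) (i j : ι) : (x * y).c i j = x.c i j + y.c i j + x.v i * y.v j := rfl
lemma one_v (i : ι) : (1 : T2 R ι).v i = 0 := rfl
lemma one_c (i j : ι) : (1 : T2 R ι).c i j = 0 := rfl
lemma inv_v (x : T2 R ι) (i : ι) : (x⁻¹).v i = - x.v i := rfl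
lemma inv_c (x : T2 R ι) (i j : ι) : (x⁻¹).c i j = - x.c i j + x.v i * x.v j := rfl

instance : Group (T2 R ι) := Group.ofLeftAxioms
  (by
    intro x y z
    ext
    · simp only [mul_v]; ring
    · simp only [mul_v, mul_c]; ring)
  (by
    intro x
    ext
    · simp only [mul_v, one_v]; ring
    · simp only [mul_c, one_v, one_c]; ring)
  (by
    intro x
    ext
    · simp only [mul_v, inv_v, one_v]; ring
    · simp only [mul_c, inv_v, inv_c, one_c]; ring)

/-- central elements -/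
def z (c : ι → ι → R) : T2 R ι := ⟨0, c⟩

lemma comm_eq (x y : T2 R ι) : ⁅x, y⁆ = z (fun i j => x.v i * y.v j - y.v i * x.v j) := by
  rw [commutatorElement_def]
  ext
  · simp only [mul_v, inv_v, z, Pi.zero_apply]; ring
  · simp only [mul_v, inv_v, mul_c, inv_c, z]; ring

lemma z_mul_z (c c' : ι → ι → R) : z c * z c' = z (c + c') := by
  ext
  · simp [mul_v, z]
  · simp [mul_c, z]

lemma z_zero : z (0 : ι → ι → R) = 1 := rfl

lemma z_comm (c : ι → ι → R) (x : T2 R ι) : z c * x = x * z c := by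
  ext
  · simp [mul_v, z]
  · simp [mul_c, z]; ring

lemma class_two (x y w : T2 R ι) : ⁅⁅x, y⁆, w⁆ = 1 := by
  rw [comm_eq x y, commutatorElement_eq_one_iff_mul_comm, z_comm]

lemma prod_z (l : List (ι → ι → R)) : (l.map z).prod = z l.sum := by
  induction l with
  | nil => rfl
  | cons a l ih => rw [List.map_cons, List.prod_cons, ih, z_mul_z, List.sum_cons]

lemma pow_v (x : T2 R ι) (n : ℕ) (i : ι) : (x ^ n).v i = n * x.v i := by
  induction n with
  | zero => simp [one_v]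
  | succ n ih => rw [pow_succ, mul_v, ih]; push_cast; ring

lemma z_pow (c : ι → ι → R) (n : ℕ) : z c ^ n = z (fun i j => n * c i j) := by
  induction n with
  | zero => ext <;> simp [z, one_v, one_c]
  | succ n ih =>
    rw [pow_succ, ih, z_mul_z]
    congr 1
    ext i j
    simp only [Pi.add_apply]; push_cast; ring

lemma torsion_free : NoTor (T2 ℤ ι) := by
  intro x n hn h
  have h1 : x.v = 0 := by
    ext i
    have := pow_v x n i
    rw [h, one_v] at this
    simpa [hn.ne'] using this.symm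
  have h2 : x = z x.c := by
    ext
    · rw [h1]; rfl
    · rfl
  rw [h2, z_pow] at h
  rw [h2]
  ext i j
  · rfl
  · have := congrArg (fun y => T2.c y i j) h
    simp only [z, one_c] at this
    have h3 : x.c i j = 0 := by simpa [hn.ne'] using this
    exact h3

/-- Reduction modulo two. -/
def red (ι : Type) : T2 ℤ ι →* T2 (ZMod 2) ι where
  toFun x := ⟨fun i => (x.v i : ZMod 2), fun i j => (x.c i j : ZMod 2)⟩
  map_one' := by ext <;> simp [one_v, one_c]
  map_mul' := by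
    intro x y
    ext <;> simp [mul_v, mul_c]

lemma red_v (x : T2 ℤ ι) (i : ι) : (red ι x).v i = (x.v i : ZMod 2) := rfl

/-- The subgroup of `T2 ℤ ι` orthogonal to `ξ` modulo two. -/
def Qx [Fintype ι] (ξ : ι → ZMod 2) : Subgroup (T2 ℤ ι) where
  carrier := {x | ∑ i, ξ i * (x.v i : ZMod 2) = 0}
  one_mem' := by simp [one_v]
  mul_mem' := by
    intro x y hx hy
    simp only [Set.mem_ofPred_eq, mul_v, Int.cast_add, mul_add, Finset.sum_add_distrib] at *
    rw [hx, hy, add_zero]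
  inv_mem' := by
    intro x hx
    simp only [Set.mem_ofPred_eq, inv_v, Int.cast_neg, mul_neg, Finset.sum_neg_distrib] at *
    rw [hx, neg_zero]

lemma mem_Qx [Fintype ι] {ξ : ι → ZMod 2} {x : T2 ℤ ι} :
    x ∈ Qx ξ ↔ ∑ i, ξ i * (x.v i : ZMod 2) = 0 := Iff.rfl

/-- The map to the finite group. -/
def rho [Fintype ι] (ξ : ι → ZMod 2) : Qx ξ →* T2 (ZMod 2) ι := (red ι).comp (Qx ξ).subtype

/-- lifting -/
lemma exists_lift [Fintype ι] (ξ : ι → ZMod 2) (p : T2 (ZMod 2) ι)
    (hp : ∑ i, ξ i * p.v i = 0) : ∃ q : Qx ξ, rho ξ q = p := by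
  refine ⟨⟨⟨fun i => ((p.v i).val : ℤ), fun i j => ((p.c i j).val : ℤ)⟩, ?_⟩, ?_⟩
  · rw [mem_Qx]; simpa using hp
  · ext <;> simp [rho, red]

/-- The image of a product of commutators. -/
lemma dprod_rho [Fintype ι] (ξ : ι → ZMod 2) (n : ℕ) (x : ℕ → Qx ξ) :
    ∃ δ : ι → ι → ZMod 2, rho ξ (dprod n x) = z δ ∧ ∀ j, ∑ i, ξ i * δ i j = 0 := by
  rw [map_dprod]
  unfold dprod
  have : ∀ i, ⁅rho ξ (x (3 + 2 * i)), rho ξ (x (4 + 2 * i))⁆ = z (fun k l =>
      (rho ξ (x (3 + 2 * i))).v k * (rho ξ (x (4 + 2 * i))).v l -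
      (rho ξ (x (4 + 2 * i))).v k * (rho ξ (x (3 + 2 * i))).v l) := fun i => comm_eq _ _
  simp only [this]
  induction (List.range n) with
  | nil => exact ⟨0, rfl, by simp⟩
  | cons i l ih =>
    obtain ⟨δ, h1, h2⟩ := ih
    rw [List.map_cons, List.prod_cons, h1, z_mul_z]
    refine ⟨_, rfl, ?_⟩
    intro j
    have hx : ∀ k, ∑ i, ξ i * (rho ξ (x k)).v i = 0 := fun k => (x k).2
    simp only [Pi.add_apply, mul_add, Finset.sum_add_distrib, h2 j, add_zero, mul_sub,
      Finset.sum_sub_distrib, ← mul_assoc]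
    rw [← Finset.sum_mul, ← Finset.sum_mul, hx, hx]
    simp

end T2

end Pool.Agent.N57.TF
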